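import Mathlib
import Pool.Agent.V11333.RandomSets

/-!
# MP_3b082f_pr: the strong law for random convex sets with a compact common mean fails in `ℓ²`
-/

set_option autoImplicit false

open MeasureTheory ProbabilityTheory Filter Topology Pointwise

namespace Pool.Agent.Results.MP_3b082f_pr.NoCompactMeanLaw

open Pool.Agent.V11333.RandomSets

/-- `X` does not contain the spaces `ℓ_1^n` uniformly: for some `n` and some `ε > 0` there is no
`(1 + ε)`-isomorphic copy of `ℓ_1^n` in `X`. -/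
def NoUniformL1 (X : Type*) [NormedAddCommGroup X] [NormedSpace ℝ X] : Prop :=
  ∃ (n : ℕ) (ε : ℝ), 0 < ε ∧ ¬ ∃ T : (Fin n → ℝ) →ₗ[ℝ] X, ∀ a : Fin n → ℝ,
    ∑ i, |a i| ≤ ‖T a‖ ∧ ‖T a‖ ≤ (1 + ε) * ∑ i, |a i|

lemma noUniformL1_inner (X : Type*) [NormedAddCommGroup X] [InnerProductSpace ℝ X] :
    NoUniformL1 X := by
  refine ⟨2, 1 / 4, by norm_num, ?_⟩
  rintro ⟨T, hT⟩
  have h1 := hT ![1, 0]
  have h2 := hT ![0, 1]
  have h3 := hT ![1, 1]
  have h4 := hT ![1, -1]
  simp only [Fin.sum_univ_two, Matrix.cons_val_zero, Matrix.cons_val_one, abs_one, abs_zero,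
    abs_neg, add_zero, zero_add] at h1 h2 h3 h4
  have e3 : T ![1, 1] = T ![1, 0] + T ![0, 1] := by
    rw [← map_add]; congr 1; ext i; fin_cases i <;> simp
  have e4 : T ![1, -1] = T ![1, 0] - T ![0, 1] := by
    rw [← map_sub]; congr 1; ext i; fin_cases i <;> simp
  have hpar := parallelogram_law_with_norm ℝ (T ![1, 0]) (T ![0, 1])
  rw [← e3, ← e4] at hpar
  nlinarith [h1.1, h1.2, h2.1, h2.2, h3.1, h4.1]

/-- Disproof of Q1 for the B-convex space `ℓ²`: there are a probability space and an independent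
sequence of random sets inside the unit ball, all with the same compact expectation `U`, whose
averages do not converge to `U`, for any `ω`. -/
theorem result : NoUniformL1 L2 ∧ BConvex L2 ∧
    ∃ (Ω : Type) (_ : MeasurableSpace Ω) (μ : Measure Ω) (_ : IsProbabilityMeasure μ)
      (U : BC L2) (Ψ : ℕ → Ω → BC L2),
      IsCompact U.carrier ∧
      (∀ n ω, ∀ x ∈ (Ψ n ω).carrier, ‖x‖ ≤ 1) ∧
      (∀ n, IsRandomSet (Ψ n)) ∧ (∀ n, HasExpectation μ (Ψ n) U) ∧ IndependentSets μ Ψ ∧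
      ∀ ω, ¬ Tendsto (fun n => Metric.hausdorffDist (average (fun i => Ψ i ω) n) U.carrier)
        atTop (𝓝 0) := by
  refine ⟨noUniformL1_inner _, bconvex_inner _, ?_⟩
  obtain ⟨Ω, mΩ, μ, hμ, U, Ψ, hc, h1, h2, h3, h4, h5, h6, h7⟩ := core 1 one_pos
  exact ⟨Ω, mΩ, μ, hμ, U, Ψ, hc, h3, h4, h5, h6, fun ω =>
    not_tendsto (fun i => Ψ i ω) U h2 (fun i => h3 i ω) (fun m => h7 ω m)⟩

end Pool.Agent.Results.MP_3b082f_pr.NoCompactMeanLaw
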